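import Pool.Agent.Helper92.LW.Defs
import Pool.Agent.Helper22.AE.F2
import Pool.Agent.Helper22.AD.BM

/-!
# LW W4 (MP_fb29e9_nt): the limit law for the random series, from the finite theorem
-/

open MeasureTheory Real Set Filter Topology unitInterval

set_option autoImplicit false

namespace Pool.Agent.Helper68.LW

open Pool.Agent.Helper22.AE
open Pool.Agent.Helper22.AC (cntc)
open Pool.Agent.Helper92.LW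

theorem cut_cont (K : ℕ) : Continuous (cut K) := by
  unfold cut
  fun_prop

theorem cut_supp (K : ℕ) : HasCompactSupport (cut K) := by
  refine HasCompactSupport.intro (K := Icc (-(2 * ((K : ℝ) + 1))) (2 * ((K : ℝ) + 1))) isCompact_Icc ?_
  intro y hy
  have hK : (0 : ℝ) < (K : ℝ) + 1 := by positivity
  have h1 : 2 * ((K : ℝ) + 1) ≤ |y| := by
    by_contra h
    push Not at h
    exact hy ⟨by linarith [(abs_lt.1 h).1], (abs_lt.1 h).2.le⟩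
  have h2 : 2 ≤ |y| / ((K : ℝ) + 1) := by
    rw [le_div_iff₀ hK]
    exact h1
  unfold cut
  refine max_eq_left (le_trans (min_le_right _ _) ?_)
  linarith

theorem fjk_cont (j K : ℕ) : Continuous (fjk j K) := by
  unfold fjk
  exact (continuous_pow j).mul (cut_cont K)

theorem fjk_supp (j K : ℕ) : HasCompactSupport (fjk j K) := by
  have h : fjk j K = (fun y : ℝ => y ^ j) * cut K := rfl
  rw [h]
  exact (cut_supp K).mul_left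

theorem limF_meas
    (rat_limF : ∀ {H : ℝ → ℝ}, ContDiff ℝ 2 H → Function.Periodic H (2 * π) → (∀ θ, 0 < H θ + deriv (deriv H) θ) →
      ∀ {φ : ℝ → ℝ}, Continuous φ → (LimF H φ ↔
      (∀ n : ℕ, ∃ X₀ : ℕ, ∀ X Y : ℚ, ((X₀ : ℚ) + 1 ≤ X) → ((X₀ : ℚ) + 1 ≤ Y) → ∀ c d : ℚ × ℚ,
      |(X : ℝ)⁻¹ * (∫ R in Icc (X : ℝ) (2 * X), φ ((cntc H ((c.1 : ℝ), (c.2 : ℝ)) R - area H * R ^ 2) / sqrt R)) -
        (Y : ℝ)⁻¹ * (∫ R in Icc (Y : ℝ) (2 * Y), φ ((cntc H ((d.1 : ℝ), (d.2 : ℝ)) R - area H * R ^ 2) / sqrt R))| ≤ 1 / ((n : ℝ) + 1))))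
    (lim_measF : ∀ {H₀ : ℝ → ℝ}, ContDiff ℝ 2 H₀ → Function.Periodic H₀ (2 * π) → ∀ {s : ℕ → ℝ},
      Summable (fun l : ℕ => (l : ℝ) ^ 2 * |s l|) → ∀ (c : ℝ × ℝ) {X : ℝ}, 1 ≤ X → ∀ {φ : ℝ → ℝ}, Continuous φ →
      Measurable (fun x : ℕ → I × I => ∫ R in Icc X (2 * X), φ ((cntc (Hx H₀ s x) c R - area (Hx H₀ s x) * R ^ 2) / sqrt R)))
    {H₀ : ℝ → ℝ} (h0 : ContDiff ℝ 2 H₀) (hp : Function.Periodic H₀ (2 * π)) {s : ℕ → ℝ}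
    (hs : Summable (fun l : ℕ => (l : ℝ) ^ 2 * |s l|)) {φ : ℝ → ℝ} (hφ : Continuous φ) :
    MeasurableSet {x : ℕ → I × I | (∀ θ, 0 < Hx H₀ s x θ + deriv (deriv (Hx H₀ s x)) θ) → LimF (Hx H₀ s x) φ} := by
  have hS := Pool.Agent.Helper22.AD.rho_meas h0 hp hs
  have hB : MeasurableSet {x : ℕ → I × I | ∀ n : ℕ, ∃ X₀ : ℕ, ∀ X Y : ℚ, ((X₀ : ℚ) + 1 ≤ X) → ((X₀ : ℚ) + 1 ≤ Y) → ∀ c d : ℚ × ℚ,
      |(X : ℝ)⁻¹ * (∫ R in Icc (X : ℝ) (2 * X), φ ((cntc (Hx H₀ s x) ((c.1 : ℝ), (c.2 : ℝ)) R - area (Hx H₀ s x) * R ^ 2) / sqrt R)) -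
        (Y : ℝ)⁻¹ * (∫ R in Icc (Y : ℝ) (2 * Y), φ ((cntc (Hx H₀ s x) ((d.1 : ℝ), (d.2 : ℝ)) R - area (Hx H₀ s x) * R ^ 2) / sqrt R))| ≤
          1 / ((n : ℝ) + 1)} := by
    have hset : {x : ℕ → I × I | ∀ n : ℕ, ∃ X₀ : ℕ, ∀ X Y : ℚ, ((X₀ : ℚ) + 1 ≤ X) → ((X₀ : ℚ) + 1 ≤ Y) → ∀ c d : ℚ × ℚ,
      |(X : ℝ)⁻¹ * (∫ R in Icc (X : ℝ) (2 * X), φ ((cntc (Hx H₀ s x) ((c.1 : ℝ), (c.2 : ℝ)) R - area (Hx H₀ s x) * R ^ 2) / sqrt R)) -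
        (Y : ℝ)⁻¹ * (∫ R in Icc (Y : ℝ) (2 * Y), φ ((cntc (Hx H₀ s x) ((d.1 : ℝ), (d.2 : ℝ)) R - area (Hx H₀ s x) * R ^ 2) / sqrt R))| ≤
          1 / ((n : ℝ) + 1)} =
        ⋂ n : ℕ, ⋃ X₀ : ℕ, ⋂ X : ℚ, ⋂ Y : ℚ, ⋂ _ : (X₀ : ℚ) + 1 ≤ X, ⋂ _ : (X₀ : ℚ) + 1 ≤ Y, ⋂ c : ℚ × ℚ, ⋂ d : ℚ × ℚ, {x : ℕ → I × I |
        |(X : ℝ)⁻¹ * (∫ R in Icc (X : ℝ) (2 * X), φ ((cntc (Hx H₀ s x) ((c.1 : ℝ), (c.2 : ℝ)) R - area (Hx H₀ s x) * R ^ 2) / sqrt R)) -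
        (Y : ℝ)⁻¹ * (∫ R in Icc (Y : ℝ) (2 * Y), φ ((cntc (Hx H₀ s x) ((d.1 : ℝ), (d.2 : ℝ)) R - area (Hx H₀ s x) * R ^ 2) / sqrt R))| ≤
          1 / ((n : ℝ) + 1)} := by
      ext x
      simp only [mem_ofPred_eq, mem_iUnion, mem_iInter]
    rw [hset]
    refine MeasurableSet.iInter fun n => MeasurableSet.iUnion fun X₀ => MeasurableSet.iInter fun X => MeasurableSet.iInter fun Y =>
      MeasurableSet.iInter fun hX => MeasurableSet.iInter fun hY => MeasurableSet.iInter fun c => MeasurableSet.iInter fun d => ?_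
    have h1 : ∀ Z : ℚ, ((X₀ : ℚ) + 1 ≤ Z) → (1 : ℝ) ≤ (Z : ℝ) := by
      intro Z hZ
      have h2 : (0 : ℚ) ≤ (X₀ : ℚ) := Nat.cast_nonneg X₀
      have h3 : (1 : ℚ) ≤ Z := by linarith
      exact_mod_cast h3
    refine measurableSet_le ?_ measurable_const
    refine continuous_abs.measurable.comp ?_
    exact ((lim_measF h0 hp hs _ (h1 X hX) hφ).const_mul _).sub ((lim_measF h0 hp hs _ (h1 Y hY) hφ).const_mul _)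
  have hset : {x : ℕ → I × I | (∀ θ, 0 < Hx H₀ s x θ + deriv (deriv (Hx H₀ s x)) θ) → LimF (Hx H₀ s x) φ} =
      {x : ℕ → I × I | ∀ θ, 0 < Hx H₀ s x θ + deriv (deriv (Hx H₀ s x)) θ}ᶜ ∪
      {x : ℕ → I × I | ∀ n : ℕ, ∃ X₀ : ℕ, ∀ X Y : ℚ, ((X₀ : ℚ) + 1 ≤ X) → ((X₀ : ℚ) + 1 ≤ Y) → ∀ c d : ℚ × ℚ,
      |(X : ℝ)⁻¹ * (∫ R in Icc (X : ℝ) (2 * X), φ ((cntc (Hx H₀ s x) ((c.1 : ℝ), (c.2 : ℝ)) R - area (Hx H₀ s x) * R ^ 2) / sqrt R)) -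
        (Y : ℝ)⁻¹ * (∫ R in Icc (Y : ℝ) (2 * Y), φ ((cntc (Hx H₀ s x) ((d.1 : ℝ), (d.2 : ℝ)) R - area (Hx H₀ s x) * R ^ 2) / sqrt R))| ≤
          1 / ((n : ℝ) + 1)} := by
    ext x
    by_cases hx : ∀ θ, 0 < Hx H₀ s x θ + deriv (deriv (Hx H₀ s x)) θ
    · have h1 := rat_limF (Hx_smooth h0 hs x) (Hx_per hp s x) hx hφ
      constructor
      · intro h
        exact Or.inr (h1.1 (h hx))
      · rintro (h | h)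
        · exact absurd hx h
        · exact fun _ => h1.2 h
    · constructor
      · intro _
        exact Or.inl hx
      · intro _ h
        exact absurd h hx
  rw [hset]
  exact hS.compl.union hB

/-- W4 for one test function -/
theorem ser_law_one
    (fin : ∃ L₀ : ℕ, ∀ {L : ℕ}, L₀ ≤ L → ∀ {H₀ : ℝ → ℝ}, ContDiff ℝ 2 H₀ → Function.Periodic H₀ (2 * π) →
      ∀ᵐ w : (Fin L → ℝ) × (Fin L → ℝ), (∀ θ, 0 < Hw H₀ w θ + deriv (deriv (Hw H₀ w)) θ) →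
        ∀ φ : ℝ → ℝ, Continuous φ → HasCompactSupport φ → LimF (Hw H₀ w) φ)
    (meas : ∀ {H₀ : ℝ → ℝ}, ContDiff ℝ 2 H₀ → Function.Periodic H₀ (2 * π) → ∀ {s : ℕ → ℝ},
      Summable (fun l : ℕ => (l : ℝ) ^ 2 * |s l|) → ∀ {φ : ℝ → ℝ}, Continuous φ →
      MeasurableSet {x : ℕ → I × I | (∀ θ, 0 < Hx H₀ s x θ + deriv (deriv (Hx H₀ s x)) θ) → LimF (Hx H₀ s x) φ})
    {H₀ : ℝ → ℝ} (h0 : ContDiff ℝ 2 H₀) (hp : Function.Periodic H₀ (2 * π)) {s : ℕ → ℝ}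
    (hs : Summable (fun l : ℕ => (l : ℝ) ^ 2 * |s l|)) (hs0 : ∀ l, s l ≠ 0) {φ : ℝ → ℝ} (hφ : Continuous φ) (hc : HasCompactSupport φ) :
    ∀ᵐ x ∂(Measure.infinitePi fun _ : ℕ => (volume : Measure (I × I))),
      (∀ θ, 0 < Hx H₀ s x θ + deriv (deriv (Hx H₀ s x)) θ) → LimF (Hx H₀ s x) φ := by
  obtain ⟨L, hL⟩ := fin
  refine ae_cmb L (meas h0 hp hs hφ) ?_
  intro t
  obtain ⟨H₁, h1, h1p, hH⟩ := Hx_cmb h0 hp hs L t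
  have hm := hL (L := L) le_rfl h1 h1p
  have hm' : ∀ᵐ w : (Fin L → ℝ) × (Fin L → ℝ), (∀ θ, 0 < Hw H₁ w θ + deriv (deriv (Hw H₁ w)) θ) → LimF (Hw H₁ w) φ := by
    filter_upwards [hm] with w hw h
    exact hw h φ hφ hc
  have hh := head_ae (s := fun l : Fin L => s l) (fun l => hs0 l) hm'
  filter_upwards [hh] with q hq
  show (∀ θ, 0 < Hx H₀ s (cmb L q t) θ + deriv (deriv (Hx H₀ s (cmb L q t))) θ) → _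
  rw [hH q]
  exact hq

/-- W4, from the measurability of the set of series with the limit property -/
theorem ser_law_of_meas
    (fin : ∃ L₀ : ℕ, ∀ {L : ℕ}, L₀ ≤ L → ∀ {H₀ : ℝ → ℝ}, ContDiff ℝ 2 H₀ → Function.Periodic H₀ (2 * π) →
      ∀ᵐ w : (Fin L → ℝ) × (Fin L → ℝ), (∀ θ, 0 < Hw H₀ w θ + deriv (deriv (Hw H₀ w)) θ) →
        ∀ φ : ℝ → ℝ, Continuous φ → HasCompactSupport φ → LimF (Hw H₀ w) φ)
    (meas : ∀ {H₀ : ℝ → ℝ}, ContDiff ℝ 2 H₀ → Function.Periodic H₀ (2 * π) → ∀ {s : ℕ → ℝ},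
      Summable (fun l : ℕ => (l : ℝ) ^ 2 * |s l|) → ∀ {φ : ℝ → ℝ}, Continuous φ →
      MeasurableSet {x : ℕ → I × I | (∀ θ, 0 < Hx H₀ s x θ + deriv (deriv (Hx H₀ s x)) θ) → LimF (Hx H₀ s x) φ})
    {H₀ : ℝ → ℝ} (h0 : ContDiff ℝ 2 H₀) (hp : Function.Periodic H₀ (2 * π)) {s : ℕ → ℝ}
    (hs : Summable (fun l : ℕ => (l : ℝ) ^ 2 * |s l|)) (hs0 : ∀ l, s l ≠ 0) :
    ∀ᵐ x ∂(Measure.infinitePi fun _ : ℕ => (volume : Measure (I × I))),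
      (∀ θ, 0 < Hx H₀ s x θ + deriv (deriv (Hx H₀ s x)) θ) → ∀ j K : ℕ, LimF (Hx H₀ s x) (fjk j K) := by
  have hall : ∀ᵐ x ∂(Measure.infinitePi fun _ : ℕ => (volume : Measure (I × I))), ∀ j K : ℕ,
      (∀ θ, 0 < Hx H₀ s x θ + deriv (deriv (Hx H₀ s x)) θ) → LimF (Hx H₀ s x) (fjk j K) := by
    rw [ae_all_iff]
    intro j
    rw [ae_all_iff]
    intro K
    exact ser_law_one fin meas h0 hp hs hs0 (fjk_cont j K) (fjk_supp j K)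
  filter_upwards [hall] with x hx h j K
  exact hx j K h

/-- W4 -/
theorem ser_law_of
    (rat_limF : ∀ {H : ℝ → ℝ}, ContDiff ℝ 2 H → Function.Periodic H (2 * π) → (∀ θ, 0 < H θ + deriv (deriv H) θ) →
      ∀ {φ : ℝ → ℝ}, Continuous φ → (LimF H φ ↔
      (∀ n : ℕ, ∃ X₀ : ℕ, ∀ X Y : ℚ, ((X₀ : ℚ) + 1 ≤ X) → ((X₀ : ℚ) + 1 ≤ Y) → ∀ c d : ℚ × ℚ,
      |(X : ℝ)⁻¹ * (∫ R in Icc (X : ℝ) (2 * X), φ ((cntc H ((c.1 : ℝ), (c.2 : ℝ)) R - area H * R ^ 2) / sqrt R)) -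
        (Y : ℝ)⁻¹ * (∫ R in Icc (Y : ℝ) (2 * Y), φ ((cntc H ((d.1 : ℝ), (d.2 : ℝ)) R - area H * R ^ 2) / sqrt R))| ≤ 1 / ((n : ℝ) + 1))))
    (lim_measF : ∀ {H₀ : ℝ → ℝ}, ContDiff ℝ 2 H₀ → Function.Periodic H₀ (2 * π) → ∀ {s : ℕ → ℝ},
      Summable (fun l : ℕ => (l : ℝ) ^ 2 * |s l|) → ∀ (c : ℝ × ℝ) {X : ℝ}, 1 ≤ X → ∀ {φ : ℝ → ℝ}, Continuous φ →
      Measurable (fun x : ℕ → I × I => ∫ R in Icc X (2 * X), φ ((cntc (Hx H₀ s x) c R - area (Hx H₀ s x) * R ^ 2) / sqrt R)))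
    (fin : ∃ L₀ : ℕ, ∀ {L : ℕ}, L₀ ≤ L → ∀ {H₀ : ℝ → ℝ}, ContDiff ℝ 2 H₀ → Function.Periodic H₀ (2 * π) →
      ∀ᵐ w : (Fin L → ℝ) × (Fin L → ℝ), (∀ θ, 0 < Hw H₀ w θ + deriv (deriv (Hw H₀ w)) θ) →
        ∀ φ : ℝ → ℝ, Continuous φ → HasCompactSupport φ → LimF (Hw H₀ w) φ)
    {H₀ : ℝ → ℝ} (h0 : ContDiff ℝ 2 H₀) (hp : Function.Periodic H₀ (2 * π)) {s : ℕ → ℝ}
    (hs : Summable (fun l : ℕ => (l : ℝ) ^ 2 * |s l|)) (hs0 : ∀ l, s l ≠ 0) :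
    ∀ᵐ x ∂(Measure.infinitePi fun _ : ℕ => (volume : Measure (I × I))),
      (∀ θ, 0 < Hx H₀ s x θ + deriv (deriv (Hx H₀ s x)) θ) → ∀ j K : ℕ, LimF (Hx H₀ s x) (fjk j K) :=
  ser_law_of_meas fin (limF_meas rat_limF lim_measF) h0 hp hs hs0

end Pool.Agent.Helper68.LW
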